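import Pool.Agent.Helper57.ZF.Goals

/-! Packet ZF ANN (MP_ef0af8_co): pigeonhole for disjoint slabs. -/

set_option autoImplicit false

namespace Pool.Agent.Helper37.ZF

open Pool.Agent.Helper57.ZF

private lemma lt_aux (a h x : ℝ) (hh : 0 < h) (i j : ℕ) (hij : i < j)
    (hi : x ≤ a + ((i : ℝ) + 1) * h) (hj : a + (j : ℝ) * h < x) : False := by
  have h1 : ((i : ℝ) + 1) ≤ j := by exact_mod_cast hij
  have h2 : ((i : ℝ) + 1) * h ≤ j * h := mul_le_mul_of_nonneg_right h1 hh.le
  linarith

theorem ANN : G_ANN := by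
  classical
  intro α Q g a h L hh hL
  by_contra hcon
  push Not at hcon
  set S : ℕ → Finset α := fun i =>
    Q.filter (fun p => a + (i : ℝ) * h < g p ∧ g p ≤ a + ((i : ℝ) + 1) * h) with hS
  have hc : ∀ i : ℕ, cnt Q (fun p => a + (i : ℝ) * h < g p ∧ g p ≤ a + ((i : ℝ) + 1) * h)
      = (S i).card := fun i => cnt_eq _ _
  have hdis : ∀ i ∈ Finset.range L, ∀ j ∈ Finset.range L, i ≠ j → Disjoint (S i) (S j) := by
    intro i _ j _ hij
    rw [Finset.disjoint_left]
    intro x hx hx'
    rw [hS] at hx hx'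
    simp only [Finset.mem_filter] at hx hx'
    rcases Nat.lt_or_gt_of_ne hij with hlt | hlt
    · exact lt_aux a h (g x) hh i j hlt hx.2.2 hx'.2.1
    · exact lt_aux a h (g x) hh j i hlt hx'.2.2 hx.2.1
  have hsum : ∑ i ∈ Finset.range L, (S i).card ≤ Q.card := by
    rw [← Finset.card_biUnion hdis]
    apply Finset.card_le_card
    intro x hx
    rw [Finset.mem_biUnion] at hx
    obtain ⟨i, _, hx⟩ := hx
    exact (Finset.mem_filter.mp hx).1
  have hbig : ∑ i ∈ Finset.range L, Q.card < ∑ i ∈ Finset.range L, L * (S i).card := by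
    apply Finset.sum_lt_sum_of_nonempty
    · exact ⟨0, Finset.mem_range.mpr hL⟩
    · intro i hi
      have := hcon i (Finset.mem_range.mp hi)
      rwa [hc i] at this
  rw [← Finset.mul_sum, Finset.sum_const, Finset.card_range, smul_eq_mul] at hbig
  have := Nat.mul_le_mul_left L hsum
  omega

end Pool.Agent.Helper37.ZF
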